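import Pool.Agent.MP_3ee8cb_gt.CZ.Atl
import Pool.Agent.MP_3ee8cb_gt.CZT.Top

/-! The fibre inequality for a Lipschitz front: the abstract statements. -/

namespace Pool.Agent.MP_3ee8cb_gt.CZK

open Set Filter Topology MeasureTheory D3
open D3MO (S2 Ch)
open D3GB (bv)
open D3NP (jc dv us Wg Lw Mi Tm)
open CZT (TS Sw)
open CZ (Atl Sl)
open scoped RealInnerProductSpace ENNReal

noncomputable section

/-- The chart map; the third coordinate is the time. -/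
def Km (κ : V → S2) (a : V) : V := Real.exp (a 2) • (κ a).1

/-- The curve of `p`. -/
def cv (C : V → V) (p : S2) (t : ℝ) : V := C (Real.exp t • p.1)

/-- The plane of the first two coordinates. -/
def io (e : ℝ × ℝ) : V := e.1 • bv 0 + e.2 • bv 1

theorem tm2 (a : V) (t : ℝ) : (a + t • bv 2 : V) 2 = a 2 + t := by simp [bv]

theorem kinv {κ : V → S2} {Om Om0 : Set V} (h : Atl (Km κ) Om Om0) (a : V) (t : ℝ) :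
    κ (a + t • bv 2) = κ a := by
  have := h.tr a t
  rw [Km, Km, tm2, smul_smul, ← Real.exp_add, add_comm t] at this
  exact Subtype.ext (smul_right_injective _ (Real.exp_pos _).ne' this)

/-- The data of a family. -/
structure FD where
  κ : V → S2
  Om : Set V
  Om0 : Set V
  Gd : Set V
  C : V → V
  θ : V → V
  β : V → S2 → ℝ
  βs : V → S2 → ℝ
  T : V → S2 → S2
  gr : V → S2 → V
  H : V → (ℝ × ℝ) →L[ℝ] (ℝ × ℝ) →L[ℝ] ℝ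
  ε : ℝ

namespace FD

variable (d : FD)

/-- The point, in the charts. -/
def c (a : V) : V := d.C (Km d.κ a)

/-- The covector, in the charts. -/
def ϑ (a : V) : V := d.θ (Km d.κ a)

/-- Positive definite. -/
def Pd (a : V) : Prop := ∀ v, v ≠ 0 → 0 < d.H a v v

/-- Negative definite. -/
def Nd (a : V) : Prop := ∀ v, v ≠ 0 → d.H a v v < 0

/-- The hypotheses on a family. -/
structure OK : Prop where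
  atl : Atl (Km d.κ) d.Om d.Om0
  ts : TS d.β d.βs d.T
  eps : d.ε = 1 ∨ d.ε = -1
  cC : ContinuousOn d.C {a | a ≠ 0}
  cθ : ContinuousOn d.θ {a | a ≠ 0}
  der : ∀ z q, HasFDerivAt (fun x => d.β x q) (innerSL ℝ (d.gr z q)) z
  cgr : Continuous fun x : V × S2 => d.gr x.1 x.2
  val : ∀ p t, d.β (cv d.C p t) p = t ∧ d.βs (cv d.C p t) p = t ∧ d.gr (cv d.C p t) p = cv d.θ p t
  crit : ∀ z q, d.βs z q = d.β z q → cv d.C q (d.β z q) = z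
  mono : ∀ p q, Antitone fun t => d.β (cv d.C p t) q - t
  monos : ∀ p q, Antitone fun t => d.βs (cv d.C p t) q - t
  exh : ∀ p q, q ≠ p → ∃ t, d.βs (cv d.C p t) q < t
  prop : ∀ Q, IsCompact Q → ∃ R, ∀ p t, cv d.C p t ∈ Q → |t| ≤ R
  sep : ∀ p q s t, cv d.C p s = cv d.C q t → cv d.θ p s = cv d.θ q t → p = q
  lipC : LocallyLipschitzOn d.Om d.c
  lipθ : LocallyLipschitzOn d.Om d.ϑ
  gm : MeasurableSet d.Gd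
  gs : d.Gd ⊆ d.Om0
  gae : ∀ᵐ a : V, a ∈ d.Om0 → a ∈ d.Gd
  ginv : ∀ a ∈ d.Gd, ∀ t : ℝ, a + t • bv 2 ∈ d.Gd
  dif : ∀ a ∈ d.Gd, DifferentiableAt ℝ d.c a ∧ DifferentiableAt ℝ d.ϑ a
  leg : ∀ a ∈ d.Gd, ∀ η, ⟪d.ϑ a, fderiv ℝ d.c a η⟫ = η 2
  zer : ∀ a ∈ d.Gd, ∀ᵐ t : ℝ, jc d.c (a + t • bv 2) ≠ 0
  sw : ∀ a ∈ d.Gd, jc d.c a ≠ 0 →
    Sw (d.β (d.c a)) (d.βs (d.c a)) (fun e => d.κ (a + io e)) (d.κ a) (d.H a)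
  sg : ∀ a ∈ d.Gd, (0 < d.ε * jc d.c a → d.Pd a ∨ d.Nd a) ∧
    (d.ε * jc d.c a < 0 → ∃ v v', 0 < d.H a v v ∧ d.H a v' v' < 0)
  hm : ∀ a ∈ d.Gd, ∀ t : ℝ, 0 ≤ t → ∀ v, d.H (a + t • bv 2) v v ≤ d.H a v v

/-- Minima and saddles that merge two components. -/
def Rs : Set V := {a ∈ d.Gd | jc d.c a ≠ 0 ∧ ¬Lw (d.β (d.c a)) (d.κ a)}

/-- A good value. -/
def Gz (z : V) : Prop := {a ∈ d.Om0 | d.c a = z}.Finite ∧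
  (∀ a ∈ d.Om0, d.c a = z → a ∈ d.Gd ∧ jc d.c a ≠ 0) ∧
    ∀ a ∈ d.Om0, ∀ a' ∈ d.Om0, d.c a = z → d.c a' = z → a 2 = a' 2 → a = a'

/-- The slope function. -/
def u (α : V → ℝ) (ξ a : V) : ℝ := α (d.c a) * ⟪d.ϑ a, ξ⟫

/-- The events on the line `x + r ξ` at the level `l`. -/
def Evt (α : V → ℝ) (ξ x : V) (l : ℝ) : Set V :=
  {a ∈ d.Om0 | (∃ r : ℝ, d.c a = x + r • ξ) ∧ d.u α ξ a = l}

/-- The line and the level are generic; `γ` is the derivative of the slope along the line. -/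
structure Gl (α : V → ℝ) (ξ x : V) (l : ℝ) (γ : V → ℝ) : Prop where
  ne : l ≠ 0
  fin : (d.Evt α ξ x l).Finite
  gd : ∀ a ∈ d.Evt α ξ x l, d.Gz (d.c a)
  der : ∀ a ∈ d.Evt α ξ x l, γ a ≠ 0 ∧
    ∃ η, fderiv ℝ d.c a η = ξ ∧ fderiv ℝ (d.u α ξ) a η = γ a
  same : ∀ a ∈ d.Evt α ξ x l, ∀ a' ∈ d.Evt α ξ x l, d.c a = d.c a' → γ a = γ a'
  ae : ∀ᵐ r : ℝ, d.Gz (x + r • ξ)

/-- The field `G θ`, in the charts. -/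
def X (G : V → V →L[ℝ] V) (a : V) : V := G (d.c a) (d.ϑ a)

/-- The derivative of the cut-off along the ray. -/
def d1 (ζ : V → ℝ) (a : V) : ℝ := fderiv ℝ ζ (d.c a) (fderiv ℝ d.c a (bv 2))

/-- The derivative of the cut-off along the field. -/
def d2 (G : V → V →L[ℝ] V) (ζ : V → ℝ) (a : V) : ℝ := fderiv ℝ ζ (d.c a) (d.X G a)

/-- The boundary term. -/
def eu (G : V → V →L[ℝ] V) (y ζ : V → ℝ) (a : V) : ℝ :=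
  d.d1 ζ a * y a - d.d2 G ζ a * jc d.c a

/-- A cut-off at time `ρ`. -/
structure Cut (G : V → V →L[ℝ] V) (y : V → ℝ) (μ : ℝ → ℝ) (k ρ : ℝ) (ζ : V → ℝ) : Prop where
  wg : Wg univ ζ
  one : ∀ p t, |t| ≤ ρ → ∀ᶠ z in 𝓝 (cv d.C p t), ζ z = 1
  ent : ∀ a ∈ d.Gd, a 2 ≤ 0 → 0 ≤ d.d1 ζ a ∧ 0 ≤ d.d2 G ζ a
  ext : ∀ a ∈ d.Gd, 0 ≤ a 2 → d.d1 ζ a ≤ 0 ∧ d.d2 G ζ a ≤ 0
  dec : ∀ a ∈ d.Gd, (a 2 ≤ 0 ∧ d.Nd a) ∨ (0 ≤ a 2 ∧ d.Pd a) → |d.d2 G ζ a * jc d.c a| ≤ μ (a 2)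
  gb : ∫ a in {a ∈ d.Om0 | a 2 ≤ 0}, d.ε * d.eu G y ζ a ≤ k

/-- A field of nonnegative forms. -/
structure Nn (G : V → V →L[ℝ] V) : Prop where
  c1 : ContDiff ℝ 1 G
  sym : ∀ z x y, ⟪G z x, y⟫ = ⟪x, G z y⟫
  nn : ∀ z x, 0 ≤ ⟪G z x, x⟫

/-- The boundary data. -/
structure Bd (G : V → V →L[ℝ] V) (y : V → ℝ) (μ : ℝ → ℝ) (k : ℝ) : Prop where
  nn : Nn G
  yd : ∀ a ∈ d.Gd, ∀ t : ℝ,
    HasDerivAt (fun s : ℝ => y (a + s • bv 2)) (dv d.c (d.X G) (a + t • bv 2)) t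
  y0 : ∀ a ∈ d.Gd, 0 < d.ε * y a
  yi : ∀ R : ℝ, IntegrableOn y {a ∈ d.Om0 | |a 2| ≤ R}
  mu : Integrable μ
  sh : ∀ ρ : ℝ, ∃ ζ, d.Cut G y μ k ρ ζ

end FD

/-- The trace of `R` on the ray through `a` ends at `τ`. -/
def Ends (R : Set V) (a : V) (τ : ℝ) : Prop := ∀ᵐ t : ℝ, a + t • bv 2 ∈ R ↔ t < τ

/-! ### The atlas -/

def SCH : Prop := ∀ κ Om Om0, Atl (Km κ) Om Om0 → ∀ a ∈ Om, Ch (fun e => κ (a + io e)) (κ a)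

/-- Integration along the rays. -/
def SFUB : Prop :=
  (∀ F : V → ℝ, Integrable F → IntegrableOn (fun a => ∫ t : ℝ, F (a + t • bv 2)) (Sl univ) ∧
    (∀ᵐ a : V, Integrable fun t : ℝ => F (a + t • bv 2)) ∧
      ∫ a, F a = ∫ a in Sl univ, ∫ t : ℝ, F (a + t • bv 2)) ∧
  (∀ P : V → Prop, (∀ᵐ a : V, P a) → ∀ᵐ a : V, ∀ᵐ t : ℝ, P (a + t • bv 2)) ∧
  (∀ P : V → Prop, (∀ a (t : ℝ), P a → P (a + t • bv 2)) →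
    (∀ᵐ a : V, a 2 ∈ Icc (0 : ℝ) 1 → P a) → ∀ᵐ a : V, P a) ∧
  ∀ A : Set V, MeasurableSet A → (∀ᵐ a : V, ∀ᵐ t : ℝ, a + t • bv 2 ∈ A) → ∀ᵐ a : V, a ∈ A

/-! ### Topology -/

def STYP : Prop := ∀ d : FD, d.OK → ∀ a ∈ d.Gd, jc d.c a ≠ 0 →
  (d.Pd a → Mi (d.β (d.c a)) (d.κ a) ∧ a ∈ d.Rs) ∧ (d.Nd a → a ∉ d.Rs) ∧
    (d.ε * jc d.c a < 0 → ¬Mi (d.β (d.c a)) (d.κ a))

def STAME : Prop := ∀ d : FD, d.OK → ∀ z, d.Gz z → ∃ Cr, Tm (d.β z) Cr ∧ ∀ q,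
  (q ∈ Cr ↔ d.βs z q = d.β z q) ∧ (q ∈ Cr → ∃ a ∈ d.Om0, d.κ a = q ∧ d.c a = z ∧ a 2 = d.β z q)

def SLINE : Prop := ∀ d : FD, d.OK → ∀ α ξ x l γ, Wg univ α → d.Gl α ξ x l γ →
  {a ∈ d.Evt α ξ x l | a ∈ d.Rs ∧ 0 < d.ε * jc d.c a * γ a}.ncard ≤
    {a ∈ d.Evt α ξ x l | a ∈ d.Rs ∧ d.ε * jc d.c a * γ a < 0}.ncard

def R_LINE : Prop := STYP → STAME → SLINE

def SBOR : Prop := ∀ d : FD, d.OK → MeasurableSet d.Rs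

def SDOWN : Prop := ∀ d : FD, d.OK → ∀ a ∈ d.Gd, ∀ t : ℝ, 0 ≤ t → jc d.c a ≠ 0 →
  a + t • bv 2 ∈ d.Rs → a ∈ d.Rs

def SFIN : Prop := ∀ d : FD, d.OK → ∀ a ∈ d.Gd, jc d.c a ≠ 0 → ∀ v, d.H a v v < 0 →
  ∃ T : ℝ, ∀ t, T ≤ t → a + t • bv 2 ∉ d.Rs

def SRAY : Prop := ∀ d : FD, d.OK → ∀ a ∈ d.Gd,
  ((∀ᵐ t : ℝ, a + t • bv 2 ∈ d.Rs) ∨ (∀ᵐ t : ℝ, a + t • bv 2 ∉ d.Rs) ∨ ∃ τ, Ends d.Rs a τ) ∧
    ∀ (s t : ℝ) v, a + s • bv 2 ∈ d.Rs → d.H (a + t • bv 2) v v < 0 → ∃ τ, Ends d.Rs a τ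

def R_RAY : Prop := SDOWN → SFIN → SRAY

/-! ### Measure theory -/

def SJC : Prop := ∀ d : FD, d.OK → ∀ᵐ a : V, a ∈ d.Om0 → a ∈ d.Gd ∧ jc d.c a ≠ 0

def R_JC : Prop := SFUB → SJC

def SGOOD : Prop := ∀ d : FD, d.OK → ∀ᵐ z : V, d.Gz z

/-- Almost every line and level is generic. -/
def SEVT : Prop := ∀ d : FD, d.OK → ∀ α ξ (lam : V →L[ℝ] ℝ), Wg univ α → lam ξ = 1 →
  ∀ᵐ v : V, d.Gl α ξ v (lam v) fun a => dv d.c (fun b => d.u α ξ b • ξ) a / jc d.c a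

def R_EVT : Prop := SJC → SGOOD → SEVT

/-- The slice inequality. -/
def SSLI : Prop := ∀ d : FD, d.OK → ∀ α ξ, Wg univ α →
  ∫ a in d.Rs, d.ε * dv d.c (fun b => d.u α ξ b • ξ) a ≤ 0

def R_SLI : Prop := SEVT → SLINE → SBOR → SSLI

/-- The inequality for a field of nonnegative forms. -/
def SPOS : Prop := ∀ d : FD, d.OK → ∀ G χ, FD.Nn G → Wg univ χ →
  IntegrableOn (dv d.c fun b => χ (d.c b) • d.X G b) d.Om0 ∧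
    ∫ a in d.Rs, d.ε * dv d.c (fun b => χ (d.c b) • d.X G b) a ≤ 0

def R_POS : Prop := SBOR → SSLI → SPOS

/-- The strong fibre inequality. -/
def SFIBS : Prop := ∀ d : FD, d.OK → ∀ G y μ k, d.Bd G y μ k → ∀ g : V → ℝ≥0∞,
  (∀ᵐ a : V, a ∈ Sl d.Om0 → g a ≠ 0 →
    ∃ τ, Ends d.Rs a τ ∧ g a ≤ ENNReal.ofReal (d.ε * y (a + τ • bv 2))) →
  ∫⁻ a in Sl d.Om0, g a ≤ ENNReal.ofReal k

def R_FIBS : Prop := SFUB → STYP → SBOR → SRAY → SPOS → SFIBS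

/-- Without merging saddles, minima are global. -/
def SMIN : Prop := ∀ d : FD, d.OK → (∀ᵐ a : V, a ∈ d.Rs → 0 < d.ε * jc d.c a) →
  ∀ᵐ a : V, a ∈ d.Gd → jc d.c a ≠ 0 → d.Pd a → ∀ q, a 2 ≤ d.β (d.c a) q

def R_MIN : Prop := STYP → STAME → SGOOD → SMIN

end

end Pool.Agent.MP_3ee8cb_gt.CZK
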