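import Pool.Agent.MP_3ee8cb_gt.CZK.Spec
import Pool.Agent.MP_3ee8cb_gt.D3NP.XBOR

/-! The set of minima and merging saddles of a Lipschitz front is a Borel set. -/

namespace Pool.Agent.MP_3ee8cb_gt.CZK

open Set MeasureTheory D3
open D3MO (S2 Low)
open D3NP (jc Lw)

theorem ckap {κ : V → S2} {Om Om0 : Set V} (h : CZ.Atl (Km κ) Om Om0) : ContinuousOn κ Om := by
  have e : ∀ a, (κ a).1 = Real.exp (-a 2) • Km κ a := fun a => by
    rw [Km, smul_smul, ← Real.exp_add, neg_add_cancel, Real.exp_zero, one_smul]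
  rw [Topology.IsInducing.subtypeVal.continuousOn_iff]
  have e' : Subtype.val ∘ κ = fun a => Real.exp (-a 2) • Km κ a := funext e
  rw [e']
  exact (by fun_prop : Continuous fun a : V => Real.exp (-a 2)).continuousOn.smul
    h.lip.continuousOn

theorem bor : SBOR := by
  intro d h
  have := D3MO.sSph.2.1
  have cC : Continuous fun x : d.Om => d.c x :=
    continuousOn_iff_continuous_restrict.1 h.lipC.continuousOn
  have cκ : Continuous fun x : d.Om => d.κ x :=
    continuousOn_iff_continuous_restrict.1 (ckap h.atl)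
  have hW : IsOpen {z : d.Om × S2 | z.2 ∈ {q | d.β (d.c z.1) q < d.β (d.c z.1) (d.κ z.1)}} :=
    isOpen_lt (h.ts.cb.comp ((cC.comp continuous_fst).prodMk continuous_snd))
      (h.ts.cb.comp ((cC.comp continuous_fst).prodMk (cκ.comp continuous_fst)))
  have m3 := D3NP.XBOR.meas (fun x : d.Om => {q | d.β (d.c x) q < d.β (d.c x) (d.κ x)}) hW _ cκ
  have mj : Measurable (jc d.c) :=
    ContinuousLinearMap.continuous_det.measurable.comp (measurable_fderiv ℝ d.c)
  have h1 := h.atl.op.measurableSet.subtype_image (measurableSet_setOf.2 m3.not)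
  have e : d.Rs = d.Gd ∩ (jc d.c ⁻¹' {0}ᶜ ∩
      Subtype.val '' {x : d.Om | ¬Lw (d.β (d.c x)) (d.κ x)}) := by
    ext a
    constructor
    · rintro ⟨h0, h1, h2⟩
      exact ⟨h0, h1, ⟨a, h.atl.sub (h.gs h0)⟩, h2, rfl⟩
    · rintro ⟨h0, h1, x, h2, rfl⟩
      exact ⟨h0, h1, h2⟩
  rw [e]
  exact h.gm.inter ((mj (measurableSet_singleton 0).compl).inter h1)

end Pool.Agent.MP_3ee8cb_gt.CZK
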