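import Pool.Agent.MP_3ee8cb_gt.CZK.RGOOD
import Pool.Agent.MP_3ee8cb_gt.D3NP.XDV

/-! Almost every line and level is generic. -/

namespace Pool.Agent.MP_3ee8cb_gt.CZK

open Set Filter Topology MeasureTheory D3 D3LM
open D3NP (jc dv Em Wg surj_of xDV)

theorem evt : R_EVT := by
  intro J G d h α ξ lam W hl
  have lu : LocallyLipschitzOn d.Om (d.u α ξ) := lip_us h.lipC h.lipθ W.c1 ξ
  have lE := lip_em h.lipC lu ξ lam
  obtain ⟨K, k1, k2, k3⟩ := h.over W.cs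
  filter_upwards [ae_evt h.atl.op h.lipC lu hl measure_empty (ae_iff.1 (G d h))
    ((J d h).mono fun a ha k => (ha k).2) h.atl.sub, ae_reg h.atl.op lE measure_empty]
    with v ⟨v1, v2, v3, v4⟩ v5
  have e : ∀ a ∈ d.Evt α ξ v (lam v), Em d.c (d.u α ξ) ξ lam a = v := fun a ha =>
    (em_iff hl).2 ha.2
  have j : ∀ a ∈ d.Evt α ξ v (lam v), ∀ η, fderiv ℝ d.c a η = ξ → fderiv ℝ (d.u α ξ) a η =
      dv d.c (fun b => d.u α ξ b • ξ) a / jc d.c a := fun a ha η k => by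
    obtain ⟨-, -, a3, a4, -⟩ := v3 a ha.1 (e a ha)
    rw [xDV.slope d.c _ ξ η a a3 k, mul_div_cancel_left₀ _ a4]
  refine ⟨v1, (fin_cpt lE k1 k2 fun a ha k => (v5 a ha k).2).subset fun a ha => ⟨k3 a ha.1
    (subset_tsupport _ (left_ne_zero_of_mul (ha.2.2.trans_ne v1))), e a ha⟩,
    fun a ha => not_not.1 (v3 a ha.1 (e a ha)).2.2.2.2.2, fun a ha => ?_, fun a ha b hb k => ?_,
    v2.mono fun r hr => not_not.1 hr⟩
  · obtain ⟨-, a2, a3, a4, a5, -⟩ := v3 a ha.1 (e a ha)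
    exact ⟨div_ne_zero (xDV.det d.c _ ξ lam a hl a2 a3 ▸ a5) a4,
      (surj_of a4 ξ).imp fun η k => ⟨k, j a ha η k⟩⟩
  · obtain ⟨η, e1⟩ := surj_of (v3 a ha.1 (e a ha)).2.2.2.1 ξ
    obtain ⟨η', e2⟩ := surj_of (v3 b hb.1 (e b hb)).2.2.2.1 ξ
    rw [← j a ha η e1, ← j b hb η' e2]
    exact v4 a ha.1 b hb.1 (e a ha) (e b hb) k η η' (e1.trans e2.symm)

end Pool.Agent.MP_3ee8cb_gt.CZK
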