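import Pool.Agent.MP_3ee8cb_gt.CZK.Spec

/-! Integration along the rays. -/

namespace Pool.Agent.MP_3ee8cb_gt.CZK

open Set Filter Topology MeasureTheory D3
open D3GB (bv)
open CZ (Sl)

theorem fub_e : ∃ e : (Fin 2 → ℝ) × ℝ ≃ᵐ V, MeasurePreserving e (volume.prod volume) volume ∧
    (∀ w s, e (w, s) 2 = s) ∧ ∀ w s t, e (w, s) + t • bv 2 = e (w, s + t) := by
  refine ⟨MeasurableEquiv.prodComm.trans
    ((MeasurableEquiv.piFinSuccAbove (fun _ : Fin 3 => ℝ) 2).symm.trans
      (MeasurableEquiv.toLp 2 (Fin 3 → ℝ))), ?_, fun w s => ?_, fun w s t => ?_⟩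
  · exact ((PiLp.volume_preserving_toLp (Fin 3)).comp
      (volume_preserving_piFinSuccAbove (fun _ : Fin 3 => ℝ) 2).symm).comp
        Measure.measurePreserving_swap
  · simp [MeasurableEquiv.piFinSuccAbove, MeasurableEquiv.prodComm, Fin.insertNthEquiv]
  · ext i
    refine Fin.succAboveCases 2 ?_ (fun j => ?_) i
    · simp [bv, MeasurableEquiv.piFinSuccAbove, MeasurableEquiv.prodComm, Fin.insertNthEquiv]
    · have : (2 : Fin 3).succAbove j ≠ 2 := Fin.succAbove_ne _ _
      simp [bv, MeasurableEquiv.piFinSuccAbove, MeasurableEquiv.prodComm, Fin.insertNthEquiv, this]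

theorem fub : SFUB := by
  obtain ⟨e, he, e2, et⟩ := fub_e
  have back : ∀ P : V → Prop, (∀ᵐ z ∂(volume.prod volume), P (e z)) → ∀ᵐ a : V, P a :=
    fun P h => ((he.symm e).quasiMeasurePreserving.ae h).mono fun a ha => by
      simpa only [e.apply_symm_apply] using ha
  have lift : ∀ P : V → Prop, (∀ᵐ w, ∀ s, P (e (w, s))) → ∀ᵐ a : V, P a := fun P h =>
    back P ((Measure.quasiMeasurePreserving_fst.ae h).mono fun z hz => hz z.2)
  have down : ∀ P : V → Prop, (∀ᵐ a : V, P a) → ∀ᵐ w, ∀ᵐ s, P (e (w, s)) := fun P h =>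
    Measure.ae_ae_of_ae_prod (he.quasiMeasurePreserving.ae h)
  have sh : ∀ (Q : ℝ → Prop) (s : ℝ), (∀ᵐ t, Q t) → ∀ᵐ t, Q (s + t) := fun Q s h =>
    (measurePreserving_add_left volume s).quasiMeasurePreserving.ae h
  refine ⟨fun F hF => ?_, fun P h => ?_, fun P hP h => ?_, fun A hA h => ?_⟩
  · have i1 : Integrable (fun z => F (e z)) (volume.prod volume) :=
      (he.integrable_comp_emb e.measurableEmbedding).2 hF
    have pre : e ⁻¹' Sl univ = univ ×ˢ Icc 0 1 := by
      ext ⟨w, s⟩
      simp only [Sl, mem_preimage, mem_ofPred_eq, e2, mem_prod, mem_univ]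
    have eq : (fun z => ∫ t : ℝ, F (e z + t • bv 2)) = fun z => ∫ t : ℝ, F (e (z.1, t)) := by
      funext ⟨w, s⟩
      simp only [et]
      exact integral_add_left_eq_self (fun t => F (e (w, t))) s
    have i2 : Integrable (fun z : (Fin 2 → ℝ) × ℝ => ∫ t : ℝ, F (e (z.1, t)))
        (volume.prod (volume.restrict (Icc (0 : ℝ) 1))) := i1.integral_prod_left.comp_fst _
    refine ⟨?_, lift _ (i1.prod_right_ae.mono fun w hw s => ?_), ?_⟩
    · rw [← he.integrableOn_comp_preimage e.measurableEmbedding, pre]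
      change Integrable (fun z => ∫ t : ℝ, F (e z + t • bv 2)) _
      rw [eq, ← Measure.prod_restrict, Measure.restrict_univ]
      exact i2
    · simp only [et]
      exact hw.comp_add_left s
    · rw [← he.setIntegral_preimage_emb e.measurableEmbedding, pre, eq, ← Measure.prod_restrict,
        Measure.restrict_univ, integral_prod _ i2, ← he.integral_comp e.measurableEmbedding,
        integral_prod _ i1]
      simp
  · refine lift _ ((down P h).mono fun w hw s => ?_)
    simp only [et]
    exact sh _ s hw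
  · refine lift _ ((down _ h).mono fun w hw s => ?_)
    have ne : (ae ((volume : Measure ℝ).restrict (Icc 0 1))).NeBot := by
      rw [ae_neBot, Ne, Measure.restrict_eq_zero]
      simp
    obtain ⟨r, h1, h2⟩ := ((ae_restrict_of_ae hw).and
      (ae_restrict_mem (μ := (volume : Measure ℝ)) (measurableSet_Icc (a := 0) (b := 1)))).exists
    have k := hP _ (s - r) (h1 (by rwa [e2]))
    rwa [et, add_sub_cancel] at k
  · refine back _ ((Measure.ae_prod_iff_ae_ae (e.measurable hA)).2
      ((down _ h).mono fun w hw => ?_))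
    obtain ⟨s, hs⟩ := hw.exists
    simp only [et] at hs
    simpa only [add_neg_cancel_left] using sh _ (-s) hs

end Pool.Agent.MP_3ee8cb_gt.CZK
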