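import Pool.Agent.MP_3ee8cb_gt.CZK.Spec
import Pool.Agent.MP_3ee8cb_gt.D3LM.Gen

/-! Almost every point is good. -/

namespace Pool.Agent.MP_3ee8cb_gt.CZK

open Set Filter Topology MeasureTheory D3 D3LM
open D3NP (jc fin_of surj_of)
open scoped RealInnerProductSpace

/-- The part of the chart domain over a compact set is relatively compact. -/
theorem FD.OK.over {d : FD} (h : d.OK) {Q : Set V} (hQ : IsCompact Q) :
    ∃ K, IsCompact K ∧ K ⊆ d.Om ∧ ∀ a ∈ d.Om0, d.c a ∈ Q → a ∈ K := by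
  obtain ⟨R, hR⟩ := h.prop Q hQ
  obtain ⟨K, k1, k2, k3⟩ := h.atl.cpt R
  exact ⟨K, k1, k2, fun a ha e => k3 a ha (hR (d.κ a) (a 2) e)⟩

/-- A regular fibre is finite on a compact set. -/
theorem fin_cpt {E : V → V} {U K : Set V} {y : V} (l : LocallyLipschitzOn U E) (k : IsCompact K)
    (KU : K ⊆ U) (h : ∀ a ∈ U, E a = y → DifferentiableAt ℝ E a ∧ jc E a ≠ 0) :
    (K ∩ E ⁻¹' {y}).Finite :=
  fin_of (E := E) (y := y) (k.of_isClosed_subset ((l.continuousOn.mono KU).preimage_isClosed_of_isClosed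
    k.isClosed isClosed_singleton) inter_subset_left) fun a ha =>
      ⟨(h a (KU ha.1) ha.2).1, (h a (KU ha.1) ha.2).2, ha.2⟩

theorem good : SGOOD := by
  intro d h
  let π : V →L[ℝ] ℝ := EuclideanSpace.proj 2
  filter_upwards [ae_reg h.atl.op h.lipC (ae_iff.1 h.gae), ae_tie (u := π) h.atl.op h.lipC
    π.lipschitz.locallyLipschitz.locallyLipschitzOn] with z z1 z2
  have r : ∀ a ∈ d.Om0, d.c a = z → a ∈ d.Gd ∧ jc d.c a ≠ 0 := fun a ha e =>
    ⟨not_not.1 (z1 a (h.atl.sub ha) e).1 ha, (z1 a (h.atl.sub ha) e).2.2⟩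
  obtain ⟨K, k1, k2, k3⟩ := h.over (isCompact_singleton (x := z))
  refine ⟨(fin_cpt h.lipC k1 k2 fun a ha e => (z1 a ha e).2).subset fun a ha =>
    ⟨k3 a ha.1 ha.2, ha.2⟩, r, fun a ha b hb e e' n => h.atl.bij.injOn ha hb ?_⟩
  have : d.ϑ a = d.ϑ b := ext_inner_right ℝ fun x => by
    obtain ⟨v, hv⟩ := surj_of (r a ha e).2 x
    obtain ⟨w, hw⟩ := surj_of (r b hb e').2 x
    have := z2 a (h.atl.sub ha) b (h.atl.sub hb) e e' n v w (hv.trans hw.symm)
    rw [π.fderiv, π.fderiv] at this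
    rw [← hv, h.leg a (r a ha e).1, hv, ← hw, h.leg b (r b hb e').1]
    exact this
  rw [Km, Km, n, h.sep (d.κ a) (d.κ b) (a 2) (b 2) (e.trans e'.symm) this]

end Pool.Agent.MP_3ee8cb_gt.CZK
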