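import Pool.Agent.MP_3ee8cb_gt.CZK.Spec

/-! Almost every point of the chart domain is good and regular. -/

namespace Pool.Agent.MP_3ee8cb_gt.CZK

open Set MeasureTheory D3
open D3GB (bv)
open D3NP (jc)

theorem rjc : R_JC := by
  intro hF d h
  have mj : Measurable (jc d.c) :=
    ContinuousLinearMap.continuous_det.measurable.comp (measurable_fderiv ℝ d.c)
  have mA : MeasurableSet (d.Om0ᶜ ∪ d.Gd ∩ jc d.c ⁻¹' {0}ᶜ) :=
    h.atl.ms.compl.union (h.gm.inter (mj (measurableSet_singleton 0).compl))
  have key := hF.2.2.2 _ mA (by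
    filter_upwards [h.gae] with a ha
    by_cases h0 : a ∈ d.Om0
    · filter_upwards [h.zer a (ha h0)] with t ht
      exact Or.inr ⟨h.ginv a (ha h0) t, ht⟩
    · refine Filter.Eventually.of_forall fun t => Or.inl fun h1 => h0 ?_
      have := h.atl.cyl0 _ h1 (-t)
      rwa [add_assoc, ← add_smul, add_neg_cancel, zero_smul, add_zero] at this)
  filter_upwards [key] with a ha h0
  rcases ha with ha | ha
  · exact absurd h0 ha
  · exact ⟨ha.1, ha.2⟩

end Pool.Agent.MP_3ee8cb_gt.CZK
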