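import Pool.Agent.MP_3ee8cb_gt.CZK.REVT
import Pool.Agent.MP_3ee8cb_gt.D3NP.Pos30

/-! The slice inequality and its sum. -/

namespace Pool.Agent.MP_3ee8cb_gt.CZK

open Set Filter Topology MeasureTheory D3 D3LM Metric
open D3NP (jc dv Em Wg xDV pos_dec)
open D3GB (trip bv)
open scoped RealInnerProductSpace

/-- The density is integrable on compact sets. -/
theorem dv_int {c f : V → V} {U K : Set V} (hU : IsOpen U) (lc : LocallyLipschitzOn U c)
    (lf : LocallyLipschitzOn U f) (k : IsCompact K) (KU : K ⊆ U) : IntegrableOn (dv c f) K := by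
  obtain ⟨M, hM⟩ := bdd_fderiv hU lc k KU
  obtain ⟨N, hN⟩ := bdd_fderiv hU lf k KU
  let F : (V →L[ℝ] V) × (V →L[ℝ] V) → ℝ := fun p => trip (p.2 (bv 0)) (p.1 (bv 1)) (p.1 (bv 2)) +
    trip (p.2 (bv 1)) (p.1 (bv 2)) (p.1 (bv 0)) + trip (p.2 (bv 2)) (p.1 (bv 0)) (p.1 (bv 1))
  have cF : Continuous F := by
    simp only [F, trip]
    fun_prop
  obtain ⟨B, hB⟩ := ((isCompact_closedBall (0 : V →L[ℝ] V) M).prod
    (isCompact_closedBall (0 : V →L[ℝ] V) N)).exists_bound_of_continuousOn cF.continuousOn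
  refine Measure.integrableOn_of_bounded (M := B) k.measure_lt_top.ne
    (cF.measurable.comp ((measurable_fderiv ℝ c).prodMk (measurable_fderiv ℝ f))).aestronglyMeasurable
    (ae_restrict_of_forall_mem k.measurableSet fun a ha => hB (fderiv ℝ c a, fderiv ℝ f a)
      ⟨mem_closedBall_zero_iff.2 (hM a ha), mem_closedBall_zero_iff.2 (hN a ha)⟩)

variable {d : FD} {α : V → ℝ}

theorem FD.OK.intg (h : d.OK) (W : Wg univ α) {f : V → V} (lf : LocallyLipschitzOn d.Om f)
    (h0 : ∀ a, α (d.c a) = 0 → f a = 0) : IntegrableOn (dv d.c f) d.Om0 := by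
  obtain ⟨K, k1, k2, k3⟩ := h.over W.cs
  refine (dv_int h.atl.op h.lipC lf k1 k2).of_forall_sdiff_eq_zero h.atl.ms fun a ha => ?_
  have c := h.lipC.continuousOn.continuousAt (h.atl.op.mem_nhds (h.atl.sub ha.1))
  have e : f =ᶠ[𝓝 a] fun _ => 0 := (c.eventually (notMem_tsupport_iff_eventuallyEq.1
    fun k => ha.2 (k3 a ha.1 k))).mono fun b hb => h0 b hb
  simp [dv, e.fderiv_eq, trip]

theorem FD.OK.lu (h : d.OK) (W : Wg univ α) (ξ : V) : LocallyLipschitzOn d.Om (d.u α ξ) :=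
  lip_us h.lipC h.lipθ W.c1 ξ

theorem FD.OK.du (h : d.OK) (W : Wg univ α) (ξ : V) {a : V} (ha : a ∈ d.Gd) :
    DifferentiableAt ℝ (d.u α ξ) a :=
  ((W.c1.differentiable one_ne_zero _).comp a (h.dif a ha).1).mul
    ((h.dif a ha).2.inner ℝ (differentiableAt_const _))

theorem FD.OK.ints (h : d.OK) (W : Wg univ α) (ξ : V) :
    IntegrableOn (dv d.c fun b => d.u α ξ b • ξ) d.Rs := by
  have c : ContDiff ℝ 1 fun r : ℝ => r • ξ := by fun_prop
  have l := lip_comp (h.lu W ξ) fun _ _ => c.contDiffAt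
  exact (h.intg W l fun a e => by simp [FD.u, e]).mono_set fun a ha => h.gs ha.1

theorem sli30 : R_SLI := by
  intro E L B d h α ξ W
  have m := B d h
  rcases eq_or_ne ξ 0 with rfl | h0
  · refine (setIntegral_eq_zero_of_forall_eq_zero fun a ha => ?_).le
    rw [xDV.slope d.c _ 0 0 a (h.du W 0 ha.1) (map_zero _), map_zero, mul_zero, mul_zero]
  obtain ⟨lam, hl⟩ : ∃ lam : V →L[ℝ] ℝ, lam ξ = 1 :=
    ⟨⟪ξ, ξ⟫⁻¹ • innerSL ℝ ξ, inv_mul_cancel₀ (inner_self_ne_zero.2 h0)⟩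
  have j : ∀ a ∈ d.Rs, jc (Em d.c (d.u α ξ) ξ lam) a = dv d.c (fun b => d.u α ξ b • ξ) a :=
    fun a ha => xDV.det d.c _ ξ lam a hl (h.dif a ha.1).1 (h.du W ξ ha.1)
  have := sgn_area1 volume (f := Em d.c (d.u α ξ) ξ lam) (f' := fderiv ℝ (Em d.c (d.u α ξ) ξ lam))
    d.ε m (fun a ha => DifferentiableAt.hasFDerivAt (((h.dif a ha.1).1.add (((h.du W ξ ha.1).sub
      (lam.differentiableAt.comp a (h.dif a ha.1).1)).smul_const ξ))) |>.hasFDerivWithinAt)
    (ContinuousLinearMap.continuous_det.measurable.comp (measurable_fderiv ℝ _))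
    ((h.ints W ξ).congr_fun (fun a ha => (j a ha).symm) m) ?_
  · exact (setIntegral_congr_fun m fun a ha => congrArg (d.ε * ·) (j a ha)).symm.trans_le this
  filter_upwards [E d h α ξ lam W hl] with v g
  have key : ∀ P : ℝ → Prop, {a ∈ d.Rs | Em d.c (d.u α ξ) ξ lam a = v ∧
      P (d.ε * jc (Em d.c (d.u α ξ) ξ lam) a)}.encard = ({a ∈ d.Evt α ξ v (lam v) | a ∈ d.Rs ∧
        P (d.ε * jc d.c a * (dv d.c (fun b => d.u α ξ b • ξ) a / jc d.c a))}.ncard : ℕ∞) := by
    intro P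
    rw [(g.fin.subset (sep_subset _ _)).cast_ncard_eq]
    congr 1
    ext a
    have k : a ∈ d.Rs → d.ε * jc d.c a * (dv d.c (fun b => d.u α ξ b • ξ) a / jc d.c a) =
        d.ε * jc (Em d.c (d.u α ξ) ξ lam) a := fun h1 => by
      rw [j a h1, mul_assoc, mul_div_cancel₀ _ h1.2.1]
    exact ⟨fun p => ⟨⟨h.gs p.1.1, (em_iff hl).1 p.2.1⟩, p.1, (k p.1).symm ▸ p.2.2⟩,
      fun p => ⟨p.2.1, (em_iff hl).2 p.1.2, k p.2.1 ▸ p.2.2⟩⟩
  exact (key (0 < ·)).trans_le ((Nat.cast_le.2 (L d h α ξ v _ _ W g)).trans_eq (key (· < 0)).symm)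

theorem pos30 : R_POS := by
  intro B S d h G χ n W
  have m := B d h
  have g1 : ContDiff ℝ 1 fun p : V × V => χ p.1 • G p.1 p.2 :=
    (W.c1.comp contDiff_fst).smul ((n.c1.comp contDiff_fst).clm_apply contDiff_snd)
  have g2 : ContDiff ℝ 1 fun p : V × V => χ p.1 • p.2 :=
    (W.c1.comp contDiff_fst).smul contDiff_snd
  have l1 := lip_comp (lip_prod h.lipC h.lipθ) fun _ _ => g1.contDiffAt
  have l2 := lip_comp (lip_prod h.lipC h.lipθ) fun _ _ => g2.contDiffAt
  have i0 : IntegrableOn (dv d.c fun b => χ (d.c b) • d.X G b) d.Om0 :=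
    h.intg W l1 fun a e => by simp [e]
  have s : d.Rs ⊆ d.Om0 := fun a ha => h.gs ha.1
  have i1 := (i0.mono_set s).const_mul d.ε
  have i2 := (IntegrableOn.mono_set (f := dv d.c fun b => χ (d.c b) • d.ϑ b)
    (h.intg W l2 fun a e => by simp [e]) s).const_mul d.ε
  refine ⟨i0, ?_⟩
  have key : ∀ δ : ℝ, 0 < δ → (∫ a in d.Rs, d.ε * dv d.c (fun b => χ (d.c b) • d.X G b) a) +
      δ * ∫ a in d.Rs, d.ε * dv d.c (fun b => χ (d.c b) • d.ϑ b) a ≤ 0 := fun δ hδ => by
    obtain ⟨ι, _, ξ, φ, o, r, h1, h2⟩ := pos_dec (G := fun z => G z + δ • .id ℝ V) (O := univ)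
      (n.c1.add contDiff_const) (fun z x y => by
        simp [inner_add_left, inner_add_right, inner_smul_left, inner_smul_right, n.sym])
      (fun z _ x hx => by
        have := mul_pos hδ (real_inner_self_pos.2 hx)
        have := n.nn z x
        simp only [add_apply, smul_apply, ContinuousLinearMap.id_apply, inner_add_left,
          real_inner_smul_left]
        linarith) isOpen_univ W.c1 W.nn W.cs W.sub
    have w : ∀ i, Wg univ (φ i) := fun i =>
      ⟨(h1 i).1, (h1 i).2.1, (isCompact_closedBall _ _).of_isClosed_subset (isClosed_tsupport _)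
        ((h1 i).2.2.2.1.trans ball_subset_closedBall), subset_univ _⟩
    rw [← integral_const_mul, ← integral_add i1 (i2.const_mul δ)]
    refine le_of_eq_of_le ((setIntegral_congr_fun m fun a ha => ?_).trans (integral_finsetSum
      Finset.univ fun i _ => (h.ints (w i) (ξ i)).const_mul d.ε))
      (Finset.sum_nonpos fun i _ => S d h _ _ (w i))
    have dp := (h.dif a ha.1).1.prodMk (h.dif a ha.1).2
    have d1 : DifferentiableAt ℝ (fun b => χ (d.c b) • d.X G b) a :=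
      (g1.differentiable one_ne_zero _).comp a dp
    have d2 : DifferentiableAt ℝ (fun b => χ (d.c b) • d.ϑ b) a :=
      (g2.differentiable one_ne_zero _).comp a dp
    rw [← Finset.mul_sum, ← xDV.sum d.c ι (fun i b => d.u (φ i) (ξ i) b • ξ i) a fun i =>
      (h.du (w i) _ ha.1).smul_const _, mul_left_comm, ← mul_add, ← xDV.add d.c _ _ δ a d1 d2]
    congr 2
    funext b
    have := h2 (d.c b) (d.ϑ b)
    simp only [FD.u, real_inner_comm (ξ _) (d.ϑ b)] at this ⊢
    rw [← this, smul_comm δ, ← smul_add]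
    rfl
  generalize (∫ a in d.Rs, d.ε * dv d.c (fun b => χ (d.c b) • d.X G b) a) = x at key
  generalize (∫ a in d.Rs, d.ε * dv d.c (fun b => χ (d.c b) • d.ϑ b) a) = y at key
  have t : Tendsto (fun δ : ℝ => x + δ * y) (𝓝[>] 0) (𝓝 (x + 0 * y)) :=
    (Continuous.tendsto (by fun_prop) 0).mono_left nhdsWithin_le_nhds
  simpa using le_of_tendsto t (eventually_nhdsWithin_of_forall key)

end Pool.Agent.MP_3ee8cb_gt.CZK
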