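import Pool.Agent.MP_3ee8cb_gt.CZK.Spec
import Pool.Agent.MP_3ee8cb_gt.CZT.Fin2
import Pool.Agent.MP_3ee8cb_gt.D3MO.Sph

/-! Charts, local types, good values, persistence of one-sidedness. -/

namespace Pool.Agent.MP_3ee8cb_gt.CZK

open Set Filter Topology MeasureTheory Metric D3
open D3MO (S2 Ch sSph)
open D3GB (bv)
open D3NP (jc Lw Mi L2 Tm)
open CZT (TS Sw)
open scoped RealInnerProductSpace

namespace XTop

theorem nq (q : S2) : ‖q.1‖ = 1 := by simp

theorem nexp (t : ℝ) (q : S2) : ‖Real.exp t • q.1‖ = Real.exp t := by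
  rw [norm_smul, nq, mul_one, Real.norm_eq_abs, abs_of_pos (Real.exp_pos t)]

theorem ne0 (t : ℝ) (q : S2) : Real.exp t • q.1 ≠ 0 :=
  norm_pos_iff.1 ((Real.exp_pos t).trans_eq (nexp t q).symm)

theorem pol {s t : ℝ} {p q : S2} (h : Real.exp s • p.1 = Real.exp t • q.1) : s = t ∧ p = q := by
  have e : s = t := Real.exp_injective (by rw [← nexp s p, h, nexp])
  subst e
  exact ⟨rfl, Subtype.ext (smul_right_injective _ (Real.exp_pos s).ne' h)⟩

theorem add2 (a : V) (t : ℝ) : (a + t • bv 2) 2 = a 2 + t := by simp [bv]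

theorem io2 (a : V) (e : ℝ × ℝ) : (a + io e) 2 = a 2 := by simp [io, bv]

theorem dec (a w : V) : w = a + io (w 0 - a 0, w 1 - a 1) + (w 2 - a 2) • bv 2 := by
  ext i
  fin_cases i <;> simp [io, bv]

variable {d : FD}

theorem c_eq (a : V) : d.c a = cv d.C (d.κ a) (a 2) := rfl

theorem ϑ_eq (a : V) : d.ϑ a = cv d.θ (d.κ a) (a 2) := rfl

theorem c_add (h : d.OK) (a : V) (t : ℝ) : d.c (a + t • bv 2) = cv d.C (d.κ a) (a 2 + t) := by
  rw [c_eq, kinv h.atl, add2]

theorem val (h : d.OK) (a : V) : d.β (d.c a) (d.κ a) = a 2 := (h.val _ _).1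

theorem lift (h : d.OK) (t : ℝ) (q : S2) : ∃ a ∈ d.Om0, d.κ a = q ∧ a 2 = t := by
  obtain ⟨a, ha, e⟩ := h.atl.bij.surjOn (ne0 t q)
  exact ⟨a, ha, (pol e).2, (pol e).1⟩

theorem uniq (h : d.OK) {a b : V} (ha : a ∈ d.Om0) (hb : b ∈ d.Om0) (e1 : d.κ a = d.κ b)
    (e2 : a 2 = b 2) : a = b := h.atl.bij.injOn ha hb (by rw [Km, Km, e1, e2])

theorem ccv (h : d.OK) (p : S2) : Continuous (cv d.C p) :=
  h.cC.comp_continuous (by fun_prop) fun t => ne0 t p

theorem sw_add (h : d.OK) {a : V} (ha : a ∈ d.Gd) (t : ℝ) (hj : jc d.c (a + t • bv 2) ≠ 0) :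
    Sw (d.β (cv d.C (d.κ a) (a 2 + t))) (d.βs (cv d.C (d.κ a) (a 2 + t)))
      (fun e => d.κ (a + io e)) (d.κ a) (d.H (a + t • bv 2)) := by
  have := h.sw _ (h.ginv a ha t) hj
  rw [c_add h, kinv h.atl] at this
  simpa only [add_right_comm a (t • bv 2), kinv h.atl] using this

theorem ty (h : d.OK) {a : V} (ha : a ∈ d.Gd) (hj : jc d.c a ≠ 0) :
    (0 < d.ε * jc d.c a ∧ (Mi (d.β (d.c a)) (d.κ a) ∨ Lw (d.β (d.c a)) (d.κ a))) ∨
      (d.ε * jc d.c a < 0 ∧ L2 (d.β (d.c a)) (d.κ a)) := by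
  have s := h.sw a ha hj
  have : d.ε * jc d.c a ≠ 0 := mul_ne_zero (by rcases h.eps with e | e <;> rw [e] <;> norm_num) hj
  refine this.lt_or_gt.symm.imp (fun e => ⟨e, ((h.sg a ha).1 e).imp (fun x => s.mi fun v => ?_)
    fun x => s.lw h.ts (by simp) x⟩) fun e => ⟨e, ?_⟩
  · by_cases hv : v = 0
    · simp [hv]
    · exact (x v hv).le
  · obtain ⟨-, v, -, hv⟩ := (h.sg a ha).2 e
    exact s.l2 h.ts hv

theorem pc (p : S2) : IsPathConnected ({p}ᶜ : Set S2) := by
  haveI : Fact (Module.finrank ℝ (EuclideanSpace ℝ (Fin 3)) = 2 + 1) := ⟨by simp⟩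
  have e : ({p}ᶜ : Set S2) = (stereographic' 2 p).symm '' univ := by
    rw [← stereographic'_source (n := 2) p, ← stereographic'_target (n := 2) p,
      (stereographic' 2 p).symm_image_target_eq_source]
  rw [e]
  exact isPathConnected_univ.image' (by
    rw [← stereographic'_target (n := 2) p]
    exact (stereographic' 2 p).continuousOn_symm)

end XTop

open XTop

theorem xCH : SCH := by
  intro κ Om Om0 h a ha
  have ci : Continuous fun e => a + io e := by unfold io; fun_prop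
  have i0 : a + io 0 = a := by simp [io]
  have t : Tendsto (fun e => a + io e) (𝓝 0) (𝓝 a) := by simpa only [i0] using ci.tendsto 0
  have cκ : ∀ w ∈ Om, ContinuousAt κ w := fun w hw => by
    rw [IsInducing.subtypeVal.continuousAt_iff]
    have e : Subtype.val ∘ κ = fun w => (Real.exp (w 2))⁻¹ • Km κ w := by
      ext1 w
      simp [Km, smul_smul]
    rw [e]
    exact ((by fun_prop : ContinuousAt (fun w : V => Real.exp (w 2)) w).inv₀
      (Real.exp_pos _).ne').smul (h.lip.continuousOn.continuousAt (h.op.mem_nhds hw))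
  refine ⟨by rw [i0], (t.eventually (h.op.mem_nhds ha)).mono fun e he =>
    ContinuousAt.comp (f := fun e => a + io e) (cκ _ he) ci.continuousAt, ?_, fun U hU => ?_⟩
  · obtain ⟨U, hU, inj⟩ := h.inj a ha
    filter_upwards [t.eventually hU] with e he x
    have := inj he (mem_of_mem_nhds hU) (by rw [Km, Km, x, io2])
    have h0 := congrArg (fun w : V => w 0) this
    have h1 := congrArg (fun w : V => w 1) this
    exact Prod.ext (by simpa [io, bv] using h0) (by simpa [io, bv] using h1)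
  · have c : ContinuousAt (fun w : V => (w 0 - a 0, w 1 - a 1)) a := by fun_prop
    have h1 := (h.opn a ha).ge (image_mem_map
      (c.preimage_mem_nhds (t := U) (by simpa [Prod.mk_zero_zero] using hU)))
    have c2 : ContinuousAt (fun q : S2 => Real.exp (a 2) • q.1) (κ a) := by fun_prop
    refine mem_of_superset (c2.preimage_mem_nhds h1) ?_
    rintro q ⟨w, hw, e⟩
    refine ⟨_, hw, ?_⟩
    have := kinv h (a + io (w 0 - a 0, w 1 - a 1)) (w 2 - a 2)
    rw [← dec a w] at this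
    exact this.symm.trans (pol e).2

theorem xTYP : STYP := by
  intro d h a ha hj
  have s := h.sw a ha hj
  refine ⟨fun x => ?_, fun x r => r.2.2 (s.lw h.ts (by simp) x), fun e m => ?_⟩
  · have m : Mi (d.β (d.c a)) (d.κ a) := s.mi fun v => by
      by_cases hv : v = 0
      · simp [hv]
      · exact (x v hv).le
    exact ⟨m, ha, hj, fun l => m.not_cl l.1⟩
  · obtain ⟨-, v, -, hv⟩ := (h.sg a ha).2 e
    exact m.not_cl (s.l2 h.ts hv).1

theorem xTAME : STAME := by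
  classical
  intro d h z g
  haveI := sSph.2.1
  have mem : ∀ q, q ∈ g.1.toFinset.image d.κ ↔ ∃ a ∈ d.Om0, d.κ a = q ∧ d.c a = z := fun q => by
    simp only [Finset.mem_image, Finite.mem_toFinset, mem_setOf_eq]
    exact ⟨fun ⟨a, x, y⟩ => ⟨a, x.1, y, x.2⟩, fun ⟨a, x, y, w⟩ => ⟨a, ⟨x, w⟩, y⟩⟩
  have cr : ∀ q, q ∈ g.1.toFinset.image d.κ ↔ d.βs z q = d.β z q := fun q => by
    rw [mem]
    constructor
    · rintro ⟨a, -, rfl, rfl⟩
      exact (h.val _ _).2.1.trans (h.val _ _).1.symm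
    · intro e
      obtain ⟨a, ha, x, y⟩ := lift h (d.β z q) q
      exact ⟨a, ha, x, by rw [c_eq, x, y, h.crit z q e]⟩
  refine ⟨g.1.toFinset.image d.κ, ⟨h.ts.cb.comp (Continuous.prodMk_right z), fun q => ?_,
    fun q hq q' hq' e => ?_⟩, fun q => ⟨cr q, fun hq => ?_⟩⟩
  · by_cases hq : q ∈ g.1.toFinset.image d.κ
    · obtain ⟨a, ha, rfl, rfl⟩ := (mem q).1 hq
      rcases ty h (g.2.1 a ha rfl).1 (g.2.1 a ha rfl).2 with ⟨-, x | x⟩ | ⟨-, x⟩
      · exact Or.inr ⟨hq, Or.inl x⟩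
      · exact Or.inl x
      · exact Or.inr ⟨hq, Or.inr x⟩
    · exact Or.inl (h.ts.lw ((h.ts.le z q).lt_of_ne fun e => hq ((cr q).2 e)))
  · obtain ⟨a, ha, rfl, x⟩ := (mem q).1 hq
    obtain ⟨b, hb, rfl, y⟩ := (mem q').1 hq'
    rw [g.2.2 a ha b hb x y (by rw [← val h a, ← val h b, x, y, e])]
  · obtain ⟨a, ha, rfl, rfl⟩ := (mem q).1 hq
    exact ⟨a, ha, rfl, rfl, (val h a).symm⟩

theorem xDOWN : SDOWN := by
  intro d h a ha t ht hj hr
  refine ⟨ha, hj, fun l => hr.2.2 ?_⟩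
  rw [c_add h, kinv h.atl]
  exact CZT.down h.ts (ccv h _) (s := a 2) (le_add_of_nonneg_right ht) (fun τ => (h.val _ τ).1)
    (h.mono _) (h.monos _) (h.sw a ha hj) (sw_add h ha t hr.2.1)
    (fun v hv => (h.hm a ha t ht v).trans_lt hv) l

theorem xFIN : SFIN := by
  intro d h a ha hj v hv
  obtain ⟨t0, h0⟩ := CZT.fin' h.ts (c := cv d.C (d.κ a)) (s := a 2) (fun τ => (h.val _ τ).1)
    (h.monos _) (h.sw a ha hj) hv (pc _) (h.exh _)
  refine ⟨max 0 (t0 - a 2), fun t ht hr => hr.2.2 ?_⟩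
  rw [c_add h, kinv h.atl]
  exact h0 _ (by linarith [le_max_right 0 (t0 - a 2)]) _ (sw_add h ha t hr.2.1)
    ((h.hm a ha t ((le_max_left _ _).trans ht) v).trans_lt hv)

end Pool.Agent.MP_3ee8cb_gt.CZK
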