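import Pool.Agent.MP_3ee8cb_gt.CZK.XTop
import Pool.Agent.MP_3ee8cb_gt.D3NP.T3

/-! The counting inequality on a generic line, for a Lipschitz front. -/

namespace Pool.Agent.MP_3ee8cb_gt.CZK

open Set Filter Topology MeasureTheory Metric D3
open D3MO (S2 Ch sSph)
open D3GB (bv)
open D3NP (jc Lw Mi L2 Tm Wg Ln st crs)
open CZT (TS Sw)
open scoped RealInnerProductSpace

namespace XLine

theorem ends {α : V → ℝ} {ξ x : V} {G : ℝ → Prop} (cs : HasCompactSupport α) (hξ : ξ ≠ 0)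
    (ae : ∀ᵐ r : ℝ, G r) : (∀ s t : ℝ, s < t → ∃ l, G l ∧ s < l ∧ l < t) ∧
      ∃ r₁ r₂ : ℝ, r₁ ≤ r₂ ∧ (∀ r, α (x + r • ξ) ≠ 0 → r₁ < r ∧ r < r₂) ∧ G r₁ ∧ G r₂ := by
  have em : IsClosedEmbedding fun r : ℝ => x + r • ξ :=
    (Homeomorph.addLeft x).isClosedEmbedding.comp (isClosedEmbedding_smul_left hξ)
  obtain ⟨R, hR⟩ := (em.isCompact_preimage cs).isBounded.subset_ball 0
  have dn : ∀ s t : ℝ, s < t → ∃ l, G l ∧ s < l ∧ l < t := by
    intro s t hst
    by_contra hn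
    have : volume (Ioo s t) = 0 :=
      measure_mono_null (fun l hl (h : G l) => hn ⟨l, h, hl⟩) (ae_iff.1 ae)
    simp at this
    linarith
  obtain ⟨r₁, g1, -, b1⟩ := dn (-|R| - 1) (-|R|) (by linarith)
  obtain ⟨r₂, g2, a2, -⟩ := dn |R| (|R| + 1) (by linarith)
  refine ⟨dn, r₁, r₂, by linarith [abs_nonneg R], fun r hr => ?_, g1, g2⟩
  have := abs_lt.1 ((mem_ball_zero_iff.1 (hR (subset_tsupport _ hr))).trans_le (le_abs_self R))
  constructor <;> linarith [this.1, this.2]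

end XLine

open XTop in
theorem xLINE : SLINE := by
  classical
  intro d h α ξ x l γ w G
  have hξ : (d.Evt α ξ x l).Nonempty → ξ ≠ 0 := by
    rintro ⟨a0, h0⟩ rfl
    exact G.ne (by simpa [FD.u] using h0.2.2.symm)
  rcases (d.Evt α ξ x l).eq_empty_or_nonempty with hE | hE
  · simp [hE]
  have αe : ∀ a ∈ d.Evt α ξ x l, α (d.c a) ≠ 0 := fun a ha e =>
    G.ne (by rw [← ha.2.2, FD.u, e, zero_mul])
  obtain ⟨dn, r₁, r₂, le, hα, g1, g2⟩ := XLine.ends (x := x) w.cs (hξ hE) G.ae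
  haveI := sSph.2.1
  haveI := sSph.2.2
  choose lf l0 l1 l2 using lift h
  let A : ℝ × S2 → V := fun e => lf (d.β (x + e.1 • ξ) e.2) e.2
  let Z : Set (ℝ × S2) := {e | d.βs (x + e.1 • ξ) e.2 = d.β (x + e.1 • ξ) e.2}
  have A0 : ∀ e, A e ∈ d.Om0 := fun e => l0 _ _
  have Au : ∀ e, d.κ (A e) = e.2 := fun e => l1 _ _
  have A2 : ∀ e, A e 2 = d.β (x + e.1 • ξ) e.2 := fun e => l2 _ _
  have gen : ∀ e ∈ Z, ∀ b : V, d.κ b = e.2 → b 2 = d.β (x + e.1 • ξ) e.2 →
      d.c b = x + e.1 • ξ ∧ α (x + e.1 • ξ) * ⟪d.gr (x + e.1 • ξ) e.2, ξ⟫ = d.u α ξ b := by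
    intro e he b e1 e2
    have e3 : d.c b = x + e.1 • ξ := by rw [c_eq, e1, e2, h.crit _ _ he]
    refine ⟨e3, ?_⟩
    rw [FD.u, e3, ϑ_eq, ← (h.val _ _).2.2, ← c_eq, e3, e1]
  have AC : ∀ e ∈ Z, d.c (A e) = x + e.1 • ξ := fun e he => (gen e he _ (Au e) (A2 e)).1
  have cl : Continuous fun e : ℝ × S2 => (x + e.1 • ξ, e.2) := by fun_prop
  let Ev0 : Set (ℝ × S2) := {e | e.1 ∈ Icc r₁ r₂ ∧ e ∈ Z ∧
    α (x + e.1 • ξ) * ⟪d.gr (x + e.1 • ξ) e.2, ξ⟫ = l}
  have mE : ∀ e ∈ Ev0, A e ∈ d.Evt α ξ x l := fun e he =>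
    ⟨A0 e, ⟨e.1, AC e he.2.1⟩, (gen e he.2.1 _ (Au e) (A2 e)).2.symm.trans he.2.2⟩
  have iE : InjOn A Ev0 := fun e he e' he' k => Prod.ext (smul_left_injective ℝ (hξ hE)
    (add_left_cancel (a := x) (by rw [← AC e he.2.1, ← AC e' he'.2.1, k])))
    (by rw [← Au, ← Au, k])
  have sE : ∀ a ∈ d.Evt α ξ x l, ∃ e ∈ Ev0, A e = a := by
    rintro a ha
    obtain ⟨r, hr⟩ := ha.2.1
    have h1 := hα r (hr ▸ αe a ha)
    have h3 : a 2 = d.β (x + r • ξ) (d.κ a) := by rw [← hr, val h]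
    have h4 : (r, d.κ a) ∈ Z := by
      show d.βs (x + r • ξ) (d.κ a) = d.β (x + r • ξ) (d.κ a)
      rw [← hr]
      exact (h.val _ _).2.1.trans (h.val _ _).1.symm
    exact ⟨_, ⟨⟨h1.1.le, h1.2.le⟩, h4, (gen _ h4 a rfl h3).2.trans ha.2.2⟩,
      uniq h (A0 _) ha.1 (Au _) ((A2 _).trans h3.symm)⟩
  have fE : Ev0.Finite := Finite.of_finite_image (G.fin.subset (by
    rintro _ ⟨e, he, rfl⟩
    exact mE e he)) iE
  choose! Cz tm hCz using xTAME d h
  have gE : ∀ e ∈ Ev0, d.Gz (x + e.1 • ξ) := fun e he => AC e he.2.1 ▸ G.gd _ (mE e he)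
  have gA : ∀ e ∈ Ev0, A e ∈ d.Gd ∧ jc d.c (A e) ≠ 0 := fun e he =>
    (gE e he).2.1 _ (A0 e) (AC e he.2.1)
  have n1 : α (x + r₁ • ξ) = 0 := not_not.1 fun k => lt_irrefl _ (hα _ k).1
  have n2 : α (x + r₂ • ξ) = 0 := not_not.1 fun k => lt_irrefl _ (hα _ k).2
  have L : Ln (fun r => d.β (x + r • ξ)) (fun r p => ⟪d.gr (x + r • ξ) p, ξ⟫) Z
      (fun r => α (x + r • ξ)) l {r | d.Gz (x + r • ξ)} (fun r => Cz (x + r • ξ)) fE.toFinset
      (fun e => if 0 < γ (A e) then 1 else -1) r₁ r₂ := by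
    refine ⟨le, fun r _ q => ?_, fun r _ q => ?_, fun r _ => ?_, fun r _ => w.nn _, n1, n2,
      G.ne, fun r _ q hq => ?_, fun r _ q hq => ?_, g1, g2, fun s t _ k _ => dn s t k,
      fun r g _ => tm _ g, fun r g _ q => (hCz _ g q).1, fun e => fE.mem_toFinset,
      fun e he => gE e (fE.mem_toFinset.1 he), fun e _ => ?_, fun e he e' he' k => ?_,
      fun e he => ?_⟩
    · have d1 : HasDerivAt (fun r : ℝ => x + r • ξ) ξ r := by
        simpa using ((hasDerivAt_id r).smul_const ξ).const_add x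
      exact (h.der (x + r • ξ) q).comp_hasDerivAt r d1
    · exact ((h.cgr.comp cl).inner continuous_const).continuousAt
    · exact (w.c1.continuous.comp (by fun_prop)).continuousAt
    · exact (isClosed_eq (h.ts.cs.comp cl) (h.ts.cb.comp cl)).isOpen_compl.mem_nhds hq
    · exact (by fun_prop : ContinuousAt (fun y : (ℝ × ℝ) × S2 =>
        ((x + y.1.1 • ξ, x + y.1.2 • ξ), y.2)) ((r, r), q)).eventually
          (h.ts.reg ((h.ts.le _ q).lt_of_ne hq))
    · split_ifs <;> simp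
    · have h1 := fE.mem_toFinset.1 he
      have h2 := fE.mem_toFinset.1 he'
      rw [G.same _ (mE e h1) _ (mE e' h2) (by rw [AC e h1.2.1, AC e' h2.2.1, k])]
    · have h1 := fE.mem_toFinset.1 he
      have h2 := AC e h1.2.1
      obtain ⟨γ0, η, e1, e2⟩ := G.der _ (mE e h1)
      have dC := h.dif _ (gA e h1).1
      have du : DifferentiableAt ℝ (d.u α ξ) (A e) :=
        ((w.c1.differentiable one_ne_zero _).comp _ dC.1).mul
          (dC.2.inner ℝ (differentiableAt_const ξ))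
      have k := (h.atl.opn _ (h.atl.sub (A0 e))).ge
        (image_mem_map (crs dC.1 (gA e h1).2 du e1 (e2 ▸ γ0)))
      have cA : ContinuousAt (fun y : ℝ × S2 => Real.exp (d.β (x + y.1 • ξ) y.2) • y.2.1) e :=
        ((Real.continuous_exp.comp (h.ts.cb.comp cl)).smul (by fun_prop)).continuousAt
      rw [Km, Au, A2] at k
      filter_upwards [cA.eventually k] with y ⟨b, k1, k2⟩ hy hn
      have g := gen y hy b (pol k2).2 (pol k2).1
      have k3 := k1 (y.1 - e.1) (sub_ne_zero.2 hn) (by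
        rw [g.1, h2, sub_smul, add_sub_add_left_eq_sub])
      rw [e2, (mE e h1).2.2, ← g.2] at k3
      split_ifs with s
      · simpa using (mul_pos_iff_of_pos_left s).1 k3
      · have := neg_of_mul_pos_right k3 (not_lt.1 s)
        simpa using this
  have key := L.line
  have e1 : ∀ Q : V → Prop, {a ∈ d.Evt α ξ x l | Q a}.ncard =
      (fE.toFinset.filter fun e => Q (A e)).card := fun Q => by
    rw [← ncard_coe_finset, ← (iE.mono fun e he => by
      simpa using (Finset.mem_filter.1 he).1).ncard_image]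
    congr 1
    ext a
    constructor
    · rintro ⟨h1, h2⟩
      obtain ⟨e, he, rfl⟩ := sE a h1
      exact ⟨e, Finset.mem_filter.2 ⟨fE.mem_toFinset.2 he, h2⟩, rfl⟩
    · rintro ⟨e, he, rfl⟩
      exact ⟨mE e (fE.mem_toFinset.1 (Finset.mem_filter.1 he).1), (Finset.mem_filter.1 he).2⟩
  rw [e1, e1, ← Nat.cast_le (α := ℤ), ← sub_nonpos, Finset.card_filter, Finset.card_filter]
  push_cast
  rw [← Finset.sum_sub_distrib]
  refine le_of_eq_of_le (Finset.sum_congr rfl fun e he => ?_) key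
  have h1 := fE.mem_toFinset.1 he
  have h3 : A e ∈ d.Rs ↔ ¬Lw (d.β (x + e.1 • ξ)) e.2 := by
    rw [← AC e h1.2.1, ← Au e]
    exact ⟨fun k => k.2.2, fun k => ⟨(gA e h1).1, (gA e h1).2, k⟩⟩
  have γ0 := (G.der _ (mE e h1)).1
  have t := ty h (gA e h1).1 (gA e h1).2
  rw [AC e h1.2.1, Au e] at t
  rw [h3, st]
  by_cases b : Lw (d.β (x + e.1 • ξ)) e.2
  · simp [b, show ¬Mi (d.β (x + e.1 • ξ)) e.2 from fun m => m.not_cl b.1]
  · rcases t with ⟨c, k⟩ | ⟨c, k⟩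
    · rw [if_pos (k.resolve_right b)]
      rcases γ0.lt_or_gt with g | g
      · have := mul_neg_of_pos_of_neg c g
        simp [b, this, this.not_gt, g.not_gt]
      · have := mul_pos c g
        simp [b, this, this.not_gt, g]
    · rw [if_neg fun m : Mi _ _ => m.not_cl k.1, if_neg b]
      rcases γ0.lt_or_gt with g | g
      · have := mul_pos_of_neg_of_neg c g
        simp [b, this, this.not_gt, g.not_gt]
      · have := mul_neg_of_neg_of_pos c g
        simp [b, this, this.not_gt, g]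

theorem line : R_LINE := fun _ _ => xLINE

end Pool.Agent.MP_3ee8cb_gt.CZK
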