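import Pool.Agent.MP_3ee8cb_gt.CZK.Spec
import Pool.Agent.MP_3ee8cb_gt.CZN.One
import Pool.Agent.MP_3ee8cb_gt.CZN.Meas
import Pool.Agent.MP_3ee8cb_gt.D3MO.Sph

/-! Without merging saddles, minima are global. -/

namespace Pool.Agent.MP_3ee8cb_gt.CZK

open MeasureTheory D3 D3NP

theorem rmin : R_MIN := by
  intro typ tame good d o h
  obtain ⟨-, i1, i2⟩ := D3MO.sSph
  have k : ∀ᵐ z : V, ∀ p, Mi (d.β z) p → ∀ q, d.β z p ≤ d.β z q := by
    filter_upwards [CZN.ae_img' d.c h, good d o] with z h1 h2 p hp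
    obtain ⟨Cr, c1, c2⟩ := tame d o z h2
    refine CZN.one_min c1 (fun q hq => ?_) hp
    obtain ⟨a, a1, rfl, rfl, -⟩ := (c2 q).2 hq
    obtain ⟨g1, g2⟩ := h2.2.1 a a1 rfl
    refine or_iff_not_imp_right.2 fun n => ?_
    exact ((o.sg a g1).1 (h1 a (o.dif a g1).1 rfl ⟨g1, g2, n⟩)).elim
      (fun e => ((typ d o a g1 g2).1 e).1) fun e => ((typ d o a g1 g2).2.1 e ⟨g1, g2, n⟩).elim
  filter_upwards [CZN.ae_reg d.c k] with a h g1 g2 e q
  exact (o.val (d.κ a) (a 2)).1.ge.trans (h (o.dif a g1).1 g2 _ ((typ d o a g1 g2).1 e).1 q)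

end Pool.Agent.MP_3ee8cb_gt.CZK
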