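import Pool.Agent.MP_3ee8cb_gt.CZK.Spec
import Pool.Agent.MP_3ee8cb_gt.D3NP.Pos30
import Pool.Agent.MP_3ee8cb_gt.D3NP.XDV
import Pool.Agent.MP_3ee8cb_gt.D3LM.Lip

/-! The slice inequality for a field of nonnegative forms, in Lipschitz charts. -/

namespace Pool.Agent.MP_3ee8cb_gt.CZK

open Set Filter Topology MeasureTheory D3 Metric
open D3GB (bv trip)
open D3NP (jc dv Wg xDV pos_dec)
open scoped RealInnerProductSpace

namespace POS

theorem mdv (C f : V → V) : Measurable (dv C f) := by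
  have h : ∀ (g : V → V) (e : V) (i : Fin 3), Measurable fun a => fderiv ℝ g a e i := fun g e i =>
    (EuclideanSpace.proj (𝕜 := ℝ) i).continuous.measurable.comp (measurable_fderiv_apply_const ℝ g e)
  unfold dv trip
  repeat' first
    | exact h _ _ _
    | apply Measurable.add
    | apply Measurable.neg
    | apply Measurable.mul

/-- `dv` as a continuous function of the two derivatives. -/
theorem cdv : Continuous fun q : (V →L[ℝ] V) × (V →L[ℝ] V) =>
    trip (q.2 (bv 0)) (q.1 (bv 1)) (q.1 (bv 2)) + trip (q.2 (bv 1)) (q.1 (bv 2)) (q.1 (bv 0)) +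
      trip (q.2 (bv 2)) (q.1 (bv 0)) (q.1 (bv 1)) := by
  unfold trip
  fun_prop

variable {d : FD}

theorem supp (ok : d.OK) {χ : V → ℝ} (w : Wg univ χ) : ∃ Q, IsCompact Q ∧ Q ⊆ d.Om ∧
    ∀ a ∈ d.Om0, d.c a ∈ tsupport χ → a ∈ Q := by
  obtain ⟨R, hR⟩ := ok.prop _ w.cs
  obtain ⟨Q, q1, q2, q3⟩ := ok.atl.cpt R
  exact ⟨Q, q1, q2, fun a ha h => q3 a ha (hR (d.κ a) (a 2) h)⟩

/-- Integrability for a field that is a smooth function of the point and the covector. -/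
theorem intg (ok : d.OK) {χ : V → ℝ} (w : Wg univ χ) {g : V × V → V} (cg : ContDiff ℝ 1 g)
    (z : ∀ q : V × V, χ q.1 = 0 → g q = 0) {f : V → V} (hf : ∀ b, f b = g (d.c b, d.ϑ b)) :
    IntegrableOn (dv d.c f) d.Om0 := by
  obtain rfl : f = fun b => g (d.c b, d.ϑ b) := funext hf
  obtain ⟨Q, q1, q2, q3⟩ := supp ok w
  have l1 : LocallyLipschitzOn d.Om fun b => g (d.c b, d.ϑ b) := fun x hx => by
    obtain ⟨K, t, ht, hK⟩ := ok.lipC hx
    obtain ⟨K', t', ht', hK'⟩ := ok.lipθ hx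
    obtain ⟨L, s, hs, hL⟩ := cg.locallyLipschitz (d.c x, d.ϑ x)
    have c0 : ContinuousWithinAt (fun b => (d.c b, d.ϑ b)) d.Om x :=
      (ok.lipC.continuousOn x hx).prodMk (ok.lipθ.continuousOn x hx)
    refine ⟨_, t ∩ t' ∩ (fun b => (d.c b, d.ϑ b)) ⁻¹' s, inter_mem (inter_mem ht ht') (c0 hs),
      hL.comp (((hK.mono fun _ h => h.1.1)).prodMk (hK'.mono fun _ h => h.1.2)) fun _ h => h.2⟩
  obtain ⟨M, hM⟩ := D3LM.bdd_fderiv ok.atl.op ok.lipC q1 q2
  obtain ⟨N, hN⟩ := D3LM.bdd_fderiv ok.atl.op l1 q1 q2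
  obtain ⟨B, hB⟩ := ((isCompact_closedBall (0 : V →L[ℝ] V) M).prod
    (isCompact_closedBall (0 : V →L[ℝ] V) N)).exists_bound_of_continuousOn cdv.continuousOn
  have i1 : IntegrableOn (dv d.c fun b => g (d.c b, d.ϑ b)) Q :=
    Measure.integrableOn_of_bounded (M := B) q1.measure_lt_top.ne (mdv _ _).aestronglyMeasurable
      ((ae_restrict_iff' q1.measurableSet).2 (Eventually.of_forall fun a ha =>
        hB (fderiv ℝ d.c a, fderiv ℝ (fun b => g (d.c b, d.ϑ b)) a)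
          ⟨mem_closedBall_zero_iff.2 (hM a ha), mem_closedBall_zero_iff.2 (hN a ha)⟩))
  refine i1.of_forall_sdiff_eq_zero ok.atl.ms fun a ha => ?_
  have h1 : d.c a ∉ tsupport χ := fun h => ha.2 (q3 a ha.1 h)
  have h2 : ContinuousAt d.c a :=
    ok.lipC.continuousOn.continuousAt (ok.atl.op.mem_nhds (ok.atl.sub ha.1))
  have h3 : (fun b => g (d.c b, d.ϑ b)) =ᶠ[𝓝 a] fun _ => 0 :=
    (h2.eventually (notMem_tsupport_iff_eventuallyEq.1 h1)).mono fun b hb => z _ hb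
  simp [dv, h3.fderiv_eq, trip]

theorem dif (ok : d.OK) {g : V × V → V} (cg : ContDiff ℝ 1 g) {a : V} (ha : a ∈ d.Rs) {f : V → V}
    (hf : ∀ b, f b = g (d.c b, d.ϑ b)) : DifferentiableAt ℝ f a := by
  obtain rfl : f = g ∘ fun b => (d.c b, d.ϑ b) := funext hf
  exact (cg.differentiable one_ne_zero _).comp a ((ok.dif a ha.1).1.prodMk (ok.dif a ha.1).2)

theorem intR (ok : d.OK) {χ : V → ℝ} (w : Wg univ χ) {g : V × V → V} (cg : ContDiff ℝ 1 g)
    (z : ∀ q : V × V, χ q.1 = 0 → g q = 0) {f : V → V} (hf : ∀ b, f b = g (d.c b, d.ϑ b)) :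
    IntegrableOn (fun a => d.ε * dv d.c f a) d.Rs :=
  ((intg ok w cg z hf).mono_set fun _ ha => ok.gs ha.1).const_mul d.ε

theorem strict (bor : SBOR) (sl : SSLI) (ok : d.OK) {G : V → V →L[ℝ] V} {χ : V → ℝ}
    (c : ContDiff ℝ 1 G) (hs : ∀ z x y, ⟪G z x, y⟫ = ⟪x, G z y⟫)
    (hp : ∀ z x, x ≠ 0 → 0 < ⟪G z x, x⟫) (w : Wg univ χ) :
    ∫ a in d.Rs, d.ε * dv d.c (fun b => χ (d.c b) • G (d.c b) (d.ϑ b)) a ≤ 0 := by
  obtain ⟨ι, _, ξ, φ, o, r, h1, h2⟩ :=
    pos_dec c hs (fun z _ => hp z) isOpen_univ w.c1 w.nn w.cs w.sub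
  have W : ∀ i, Wg univ (φ i) := fun i => by
    obtain ⟨a1, a2, a3, a4, a5⟩ := h1 i
    exact ⟨a1, a2, (isCompact_closedBall (o i) (r i)).of_isClosed_subset (isClosed_tsupport _)
      (a4.trans ball_subset_closedBall), subset_univ _⟩
  have cu : ∀ i, ContDiff ℝ 1 fun q : V × V => (φ i q.1 * ⟪q.2, ξ i⟫) • ξ i := fun i =>
    (((W i).c1.comp contDiff_fst).mul (contDiff_snd.inner ℝ contDiff_const)).smul contDiff_const
  have e : (fun b => χ (d.c b) • G (d.c b) (d.ϑ b)) = fun b => ∑ i, d.u (φ i) (ξ i) b • ξ i := by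
    funext b
    rw [h2]
    refine Finset.sum_congr rfl fun i _ => ?_
    rw [FD.u, real_inner_comm]
  have e2 : ∫ a in d.Rs, d.ε * dv d.c (fun b => ∑ i, d.u (φ i) (ξ i) b • ξ i) a =
      ∫ a in d.Rs, ∑ i, d.ε * dv d.c (fun b => d.u (φ i) (ξ i) b • ξ i) a := by
    refine setIntegral_congr_fun (bor d ok) fun a ha => ?_
    have := xDV.sum d.c ι (fun i b => d.u (φ i) (ξ i) b • ξ i) a fun i =>
      dif ok (cu i) ha fun _ => rfl
    simp only [this, Finset.mul_sum]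
  have e3 : ∀ i, IntegrableOn (fun a => d.ε * dv d.c (fun b => d.u (φ i) (ξ i) b • ξ i) a) d.Rs :=
    fun i => intR ok (W i) (cu i) (fun q hq => by simp [hq]) fun _ => rfl
  rw [e, e2, integral_finsetSum _ fun i _ => e3 i]
  exact Finset.sum_nonpos fun i _ => sl d ok (φ i) (ξ i) (W i)

end POS

theorem pos : R_POS := by
  intro bor sl d ok G χ nn w
  have m := bor d ok
  have c1 : ContDiff ℝ 1 fun q : V × V => χ q.1 • G q.1 q.2 :=
    (w.c1.comp contDiff_fst).smul ((nn.c1.comp contDiff_fst).clm_apply contDiff_snd)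
  have c2 : ContDiff ℝ 1 fun q : V × V => χ q.1 • q.2 := (w.c1.comp contDiff_fst).smul contDiff_snd
  refine ⟨POS.intg ok w c1 (fun q hq => by simp [hq]) fun _ => rfl, ?_⟩
  have i1 : IntegrableOn (fun a => d.ε * dv d.c (fun b => χ (d.c b) • G (d.c b) (d.ϑ b)) a) d.Rs :=
    POS.intR ok w c1 (fun q hq => by simp [hq]) fun _ => rfl
  have i2 : IntegrableOn (fun a => d.ε * dv d.c (fun b => χ (d.c b) • d.ϑ b) a) d.Rs :=
    POS.intR ok w c2 (fun q hq => by simp [hq]) fun _ => rfl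
  have key : ∀ δ : ℝ, 0 < δ →
      (∫ a in d.Rs, d.ε * dv d.c (fun b => χ (d.c b) • G (d.c b) (d.ϑ b)) a) +
        δ * ∫ a in d.Rs, d.ε * dv d.c (fun b => χ (d.c b) • d.ϑ b) a ≤ 0 := by
    intro δ hδ
    have h := POS.strict bor sl ok (G := fun z => G z + δ • ContinuousLinearMap.id ℝ V)
      (nn.c1.add contDiff_const) (fun z x y => by
        simp [inner_add_left, inner_add_right, inner_smul_left, inner_smul_right, nn.sym])
      (fun z x hx => by
        have h1 := nn.nn z x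
        have h2 : 0 < ⟪x, x⟫ := real_inner_self_pos.2 hx
        have h3 : ⟪(G z + δ • ContinuousLinearMap.id ℝ V) x, x⟫ = ⟪G z x, x⟫ + δ * ⟪x, x⟫ := by
          rw [add_apply, inner_add_left, smul_apply,
            real_inner_smul_left, ContinuousLinearMap.id_apply]
        rw [h3]
        positivity) w
    have e : (fun b => χ (d.c b) • (G (d.c b) + δ • ContinuousLinearMap.id ℝ V) (d.ϑ b)) =
        fun b => χ (d.c b) • G (d.c b) (d.ϑ b) + δ • (χ (d.c b) • d.ϑ b) := by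
      funext b
      rw [add_apply, smul_apply, ContinuousLinearMap.id_apply, smul_add, smul_comm]
    rw [e] at h
    rw [← integral_const_mul, ← integral_add i1 (i2.const_mul δ)]
    refine le_of_eq_of_le (setIntegral_congr_fun m fun a ha => ?_) h
    have := xDV.add d.c (fun b => χ (d.c b) • G (d.c b) (d.ϑ b)) (fun b => χ (d.c b) • d.ϑ b) δ a
      (POS.dif ok c1 ha fun _ => rfl) (POS.dif ok c2 ha fun _ => rfl)
    simp only [this]
    ring
  change ∫ a in d.Rs, d.ε * dv d.c (fun b => χ (d.c b) • G (d.c b) (d.ϑ b)) a ≤ 0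
  set I := ∫ a in d.Rs, d.ε * dv d.c (fun b => χ (d.c b) • G (d.c b) (d.ϑ b)) a
  set J := ∫ a in d.Rs, d.ε * dv d.c (fun b => χ (d.c b) • d.ϑ b) a
  by_contra hI
  have hI' : 0 < I := not_le.1 hI
  have hJ : 0 < |J| + 1 := by positivity
  have h := key (I / (|J| + 1)) (by positivity)
  have h2 : I / (|J| + 1) * (|J| + 1) = I := div_mul_cancel₀ _ hJ.ne'
  have h3 : 0 < I / (|J| + 1) := by positivity
  nlinarith [neg_abs_le J]

end Pool.Agent.MP_3ee8cb_gt.CZK
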