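import Pool.Agent.MP_3ee8cb_gt.CZK.Spec

/-! The trace of the set of minima and merging saddles on a ray. -/

namespace Pool.Agent.MP_3ee8cb_gt.CZK

open Set Filter Topology MeasureTheory D3
open D3GB (bv)
open D3NP (jc)

namespace RRAY

theorem sh (a : V) (s t : ℝ) : a + s • bv 2 + (t - s) • bv 2 = a + t • bv 2 := by
  rw [add_assoc, ← add_smul, add_sub_cancel]

theorem low (h : SDOWN) {d : FD} (ok : d.OK) {a : V} (ha : a ∈ d.Gd) {s t : ℝ} (hst : s ≤ t)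
    (hs : jc d.c (a + s • bv 2) ≠ 0) (ht : a + t • bv 2 ∈ d.Rs) : a + s • bv 2 ∈ d.Rs :=
  h d ok _ (ok.ginv a ha s) (t - s) (sub_nonneg.2 hst) hs (by rwa [sh])

theorem ends (h : SDOWN) {d : FD} (ok : d.OK) {a : V} (ha : a ∈ d.Gd)
    (hn : {t : ℝ | a + t • bv 2 ∈ d.Rs}.Nonempty) (hb : BddAbove {t : ℝ | a + t • bv 2 ∈ d.Rs}) :
    ∃ τ, Ends d.Rs a τ := by
  refine ⟨sSup {t : ℝ | a + t • bv 2 ∈ d.Rs}, ?_⟩
  filter_upwards [ok.zer a ha, Measure.ae_ne volume (sSup {t : ℝ | a + t • bv 2 ∈ d.Rs})]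
    with t ht hne
  refine ⟨fun hm => lt_of_le_of_ne (le_csSup hb hm) hne, fun hlt => ?_⟩
  obtain ⟨t', ht', hl⟩ := exists_lt_of_lt_csSup hn hlt
  exact low h ok ha hl.le ht ht'

end RRAY

open RRAY in
theorem ray : R_RAY := by
  intro hD hF d ok a ha
  refine ⟨?_, fun s t v hs hv => ?_⟩
  · by_cases hn : {t : ℝ | a + t • bv 2 ∈ d.Rs}.Nonempty
    · by_cases hb : BddAbove {t : ℝ | a + t • bv 2 ∈ d.Rs}
      · exact .inr (.inr (ends hD ok ha hn hb))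
      · refine .inl ?_
        filter_upwards [ok.zer a ha] with t ht
        obtain ⟨t', ht', hl⟩ := not_bddAbove_iff.1 hb t
        exact low hD ok ha hl.le ht ht'
    · exact .inr (.inl (.of_forall fun t ht => hn ⟨t, ht⟩))
  · obtain ⟨t', ht', hz⟩ : ∃ t' ∈ Ici t, jc d.c (a + t' • bv 2) ≠ 0 :=
      Measure.exists_mem_of_measure_ne_zero_of_ae (μ := volume) (by simp)
        (ae_restrict_of_ae (ok.zer a ha))
    have h1 := ok.hm _ (ok.ginv a ha t) (t' - t) (sub_nonneg.2 ht') v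
    rw [sh] at h1
    obtain ⟨T, hT⟩ := hF d ok _ (ok.ginv a ha t') hz v (h1.trans_lt hv)
    refine ends hD ok ha ⟨s, hs⟩ ⟨T + t', fun r hr => ?_⟩
    by_contra hc
    exact hT (r - t') (by linarith [not_le.1 hc]) (by rwa [sh])

end Pool.Agent.MP_3ee8cb_gt.CZK
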