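import Pool.Agent.MP_3ee8cb_gt.CZK.Spec
import Pool.Agent.MP_3ee8cb_gt.D3MO.Sph

/-! The local types and tameness at good values. -/

namespace Pool.Agent.MP_3ee8cb_gt.CZK

open Set Filter Topology D3
open D3MO (S2)
open D3NP (jc Lw Mi Tm)

theorem typ : STYP := by
  intro d h a ha hj
  have s := h.sw a ha hj
  refine ⟨fun hp => ?_, fun hn r => r.2.2 (s.lw h.ts (by simp) hn), fun hl m => ?_⟩
  · have m := s.mi fun e => by
      rcases eq_or_ne e 0 with rfl | he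
      · simp
      · exact (hp e he).le
    exact ⟨m, ha, hj, fun l => m.not_cl l.1⟩
  · obtain ⟨-, v, -, hv⟩ := (h.sg a ha).2 hl
    exact m.not_cl (s.l2 h.ts hv).1

theorem tame : STAME := by
  classical
  intro d h z hz
  have : LocallyPathConnectedSpace S2 := D3MO.sSph.2.1
  have val : ∀ a, d.c a = z → d.β z (d.κ a) = a 2 ∧ d.βs z (d.κ a) = a 2 := by
    rintro a rfl
    exact ⟨(h.val (d.κ a) (a 2)).1, (h.val (d.κ a) (a 2)).2.1⟩
  have mem : ∀ q, q ∈ hz.1.toFinset.image d.κ ↔ ∃ a ∈ d.Om0, d.κ a = q ∧ d.c a = z := fun q => by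
    simp only [Finset.mem_image, Finite.mem_toFinset]
    exact ⟨fun ⟨a, h1, h2⟩ => ⟨a, h1.1, h2, h1.2⟩, fun ⟨a, h1, h2, h3⟩ => ⟨a, ⟨h1, h3⟩, h2⟩⟩
  have crit : ∀ q, d.βs z q = d.β z q → ∃ a ∈ d.Om0, d.κ a = q ∧ d.c a = z := fun q hq => by
    have n : ∀ (t : ℝ) (p : S2), ‖Real.exp t • p.1‖ = Real.exp t := fun t p => by
      rw [norm_smul, mem_sphere_zero_iff_norm.1 p.2, mul_one,
        Real.norm_of_nonneg (Real.exp_pos t).le]
    obtain ⟨a, ha, e⟩ := h.atl.bij.surjOn (show Real.exp (d.β z q) • q.1 ∈ {q : V | q ≠ 0} from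
      norm_pos_iff.1 (by rw [n]; exact Real.exp_pos _))
    have e2 : Real.exp (a 2) = Real.exp (d.β z q) :=
      (n (a 2) (d.κ a)).symm.trans ((congrArg norm e).trans (n _ q))
    refine ⟨a, ha, Subtype.ext (smul_right_injective _ (Real.exp_pos (a 2)).ne' ?_), ?_⟩
    · exact e.trans (by rw [e2])
    · rw [FD.c, e]
      exact h.crit z q hq
  refine ⟨hz.1.toFinset.image d.κ, ⟨h.ts.cb.comp (Continuous.prodMk_right z), fun p => ?_,
    fun q hq q' hq' e => ?_⟩, fun q => ⟨⟨fun hq => ?_, fun hq => (mem q).2 (crit q hq)⟩,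
      fun hq => ?_⟩⟩
  · rcases (h.ts.le z p).lt_or_eq with l | l
    · exact Or.inl (h.ts.lw l)
    obtain ⟨a, ha, rfl, rfl⟩ := crit p l
    obtain ⟨g, hj⟩ := hz.2.1 a ha rfl
    have m := (mem _).2 ⟨a, ha, rfl, rfl⟩
    have ne : d.ε * jc d.c a ≠ 0 := mul_ne_zero (by rcases h.eps with e | e <;> simp [e]) hj
    rcases ne.lt_or_gt with l | l
    · obtain ⟨-, v, -, hv⟩ := (h.sg a g).2 l
      exact Or.inr ⟨m, Or.inr ((h.sw a g hj).l2 h.ts hv)⟩
    rcases (h.sg a g).1 l with l | l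
    · exact Or.inr ⟨m, Or.inl ((typ d h a g hj).1 l).1⟩
    · exact Or.inl ((h.sw a g hj).lw h.ts (by simp) l)
  · obtain ⟨a, ha, rfl, e1⟩ := (mem q).1 hq
    obtain ⟨a', ha', rfl, e2⟩ := (mem q').1 hq'
    rw [(val a e1).1, (val a' e2).1] at e
    rw [hz.2.2 a ha a' ha' e1 e2 e]
  · obtain ⟨a, -, rfl, e1⟩ := (mem q).1 hq
    rw [(val a e1).1, (val a e1).2]
  · obtain ⟨a, ha, rfl, e1⟩ := (mem q).1 hq
    exact ⟨a, ha, rfl, e1, (val a e1).1.symm⟩

end Pool.Agent.MP_3ee8cb_gt.CZK
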