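import Pool.Agent.MP_3ee8cb_gt.CZK.Spec

/-! Integration along the rays. -/

namespace Pool.Agent.MP_3ee8cb_gt.CZK

open Set Filter Topology MeasureTheory D3
open D3GB (bv)
open CZ (Sl)

namespace XFUB

theorem c2 : Continuous fun a : V => a 2 := (EuclideanSpace.proj 2 : V →L[ℝ] ℝ).continuous

theorem sh (a : V) (t : ℝ) : (a + t • bv 2) 2 = a 2 + t := by simp [bv]

theorem ms : MeasurableSet (Sl univ) := by
  have : Sl univ = (fun a : V => a 2) ⁻¹' Icc 0 1 := by ext; simp [Sl]
  rw [this]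
  exact c2.measurable measurableSet_Icc

theorem mp : MeasurePreserving (fun x : V × ℝ => x.1 + x.2 • bv 2)
    ((volume.restrict (Sl univ)).prod volume) volume := by
  have m : Measurable fun x : V × ℝ => x.1 + x.2 • bv 2 := by fun_prop
  refine ⟨m, Measure.ext fun s hs => ?_⟩
  have mT : MeasurableSet {x : V × ℝ | x.1 2 - x.2 ∈ Icc (0 : ℝ) 1} :=
    ((c2.comp continuous_fst).sub continuous_snd).measurable measurableSet_Icc
  have e1 : ∀ t : ℝ, (volume.restrict (Sl univ))
      ((fun a : V => (a, t)) ⁻¹' ((fun x : V × ℝ => x.1 + x.2 • bv 2) ⁻¹' s)) =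
      (volume.restrict s) ((fun a : V => (a, t)) ⁻¹' {x : V × ℝ | x.1 2 - x.2 ∈ Icc (0 : ℝ) 1}) := by
    intro t
    rw [Measure.restrict_apply' ms, Measure.restrict_apply' hs,
      ← measure_preimage_add_right volume (t • bv 2) (_ ∩ s)]
    congr 1
    ext a
    simp only [Sl, mem_inter_iff, mem_preimage, mem_ofPred_eq, mem_univ, true_and, sh,
      add_sub_cancel_right]
    exact and_comm
  have e2 : ∀ b : V, volume (Prod.mk b ⁻¹' {x : V × ℝ | x.1 2 - x.2 ∈ Icc (0 : ℝ) 1}) = 1 := by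
    intro b
    have : Prod.mk b ⁻¹' {x : V × ℝ | x.1 2 - x.2 ∈ Icc (0 : ℝ) 1} = Icc (b 2 - 1) (b 2) := by
      ext t
      simp only [mem_preimage, mem_ofPred_eq, mem_Icc]
      constructor <;> exact fun h => ⟨by linarith [h.1, h.2], by linarith [h.1, h.2]⟩
    rw [this, Real.volume_Icc]
    simp
  rw [Measure.map_apply m hs, Measure.prod_apply_symm (m hs)]
  simp only [e1]
  rw [← Measure.prod_apply_symm mT, Measure.prod_apply mT]
  simp only [e2]
  simp

theorem inv (P : V → Prop) (h : ∀ a (t : ℝ), P a → P (a + t • bv 2))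
    (h0 : ∀ᵐ a : V, a 2 ∈ Icc (0 : ℝ) 1 → P a) : ∀ᵐ a : V, P a := by
  have : ∀ n : ℤ, ∀ᵐ a : V, (a + (-n : ℝ) • bv 2) 2 ∈ Icc (0 : ℝ) 1 → P (a + (-n : ℝ) • bv 2) :=
    fun n => (measurePreserving_add_right volume ((-n : ℝ) • bv 2)).quasiMeasurePreserving.ae h0
  filter_upwards [ae_all_iff.2 this] with a ha
  have := h _ (⌊a 2⌋ : ℝ) (ha ⌊a 2⌋ (by
    rw [sh]
    exact ⟨by linarith [Int.floor_le (a 2)], by linarith [Int.lt_floor_add_one (a 2)]⟩))
  rwa [add_assoc, ← add_smul, neg_add_cancel, zero_smul, add_zero] at this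

theorem res {P : V → Prop} (h : ∀ᵐ a ∂(volume.restrict (Sl univ)), P a) :
    ∀ᵐ a : V, a 2 ∈ Icc (0 : ℝ) 1 → P a :=
  ((ae_restrict_iff' ms).1 h).mono fun _ k q => k ⟨mem_univ _, q⟩

theorem asc (a : V) (s t : ℝ) : a + s • bv 2 + t • bv 2 = a + (s + t) • bv 2 := by
  rw [add_assoc, ← add_smul]

end XFUB

open XFUB

theorem xFUB : SFUB := by
  refine ⟨fun F hF => ?_, fun P hP => ?_, inv, fun A mA h => ?_⟩
  · have i := (mp.integrable_comp hF.1).2 hF
    refine ⟨i.integral_prod_left, inv _ (fun a s k => ?_) (res i.prod_right_ae), ?_⟩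
    · simp only [asc]
      exact k.comp_add_left s
    · have := integral_map (μ := (volume.restrict (Sl univ)).prod volume)
        mp.measurable.aemeasurable (f := F) (mp.map_eq.symm ▸ hF.1)
      rw [mp.map_eq] at this
      exact this.trans (integral_prod _ i)
  · refine inv _ (fun a s k => ?_) (res (Measure.ae_ae_of_ae_prod (mp.quasiMeasurePreserving.ae hP)))
    simp only [asc]
    exact (measurePreserving_add_left volume s).quasiMeasurePreserving.ae k
  · have := (Measure.ae_prod_iff_ae_ae (μ := volume.restrict (Sl univ)) (ν := volume)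
      (p := fun x : V × ℝ => x.1 + x.2 • bv 2 ∈ A) (mp.measurable mA)).2 (ae_restrict_of_ae h)
    rw [← mp.map_eq]
    exact (ae_map_iff mp.measurable.aemeasurable mA).2 this

end Pool.Agent.MP_3ee8cb_gt.CZK
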